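import Pool.Agent.H992.SF.Defs

/-!
# SF/MOM: from characteristic functions to moments, with weights (helper627 for helper992)
-/

set_option autoImplicit false
open MeasureTheory Filter Topology Complex ProbabilityTheory
open scoped ContDiff ENNReal NNReal

namespace Pool.Agent.H627.SF

open Pool.Agent.W745.RW (TF)
open Pool.Agent.N661.BH (HP)
open Pool.Agent.H992.SF

noncomputable section

/-- the product of standard Gaussians -/
abbrev gd (d : ℕ) : Measure (Fin d → ℝ) := Measure.pi fun _ => gaussianReal 0 1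

section abs

variable {Z : Type*} [MeasurableSpace Z] {d : ℕ}

lemma inner_toLp' (x : Fin d → ℝ) (t : EuclideanSpace ℝ (Fin d)) :
    inner ℝ (WithLp.toLp 2 x : EuclideanSpace ℝ (Fin d)) t = ∑ i, t i * x i := by
  rw [PiLp.inner_apply]
  refine Finset.sum_congr rfl fun i _ => ?_
  simp [RCLike.inner_apply]

/-- bounded continuous functions -/
lemma conv_bdd (Q : Measure Z) [IsProbabilityMeasure Q] (X : ℕ → Z → Fin d → ℝ)
    (hX : ∀ n, AEMeasurable (X n) Q)
    (h : ∀ t : Fin d → ℝ, Tendsto (fun n => ∫ z, Complex.exp (I * ((∑ i, t i * X n z i : ℝ) : ℂ)) ∂Q)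
      atTop (𝓝 (Complex.exp (-(∑ i, (t i : ℂ) ^ 2) / 2))))
    (g : (Fin d → ℝ) → ℝ) (hg : Continuous g) (C : ℝ) (hC : ∀ x, |g x| ≤ C) :
    Tendsto (fun n => ∫ z, g (X n z) ∂Q) atTop (𝓝 (∫ x, g x ∂(gd d))) := by
  have hcont : Continuous fun x : Fin d → ℝ => (WithLp.toLp 2 x : EuclideanSpace ℝ (Fin d)) :=
    PiLp.continuous_toLp 2 _
  let Y : ℕ → Z → EuclideanSpace ℝ (Fin d) := fun n z => WithLp.toLp 2 (X n z)
  have hY : ∀ n, AEMeasurable (Y n) Q := fun n => hcont.measurable.comp_aemeasurable (hX n)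
  let Pn : ℕ → ProbabilityMeasure (EuclideanSpace ℝ (Fin d)) := fun n =>
    ⟨Q.map (Y n), Measure.isProbabilityMeasure_map (hY n)⟩
  let G : ProbabilityMeasure (EuclideanSpace ℝ (Fin d)) :=
    ⟨stdGaussian (EuclideanSpace ℝ (Fin d)), inferInstance⟩
  have hexp : ∀ τ : EuclideanSpace ℝ (Fin d), Continuous fun x : EuclideanSpace ℝ (Fin d) =>
      Complex.exp (((inner ℝ x τ : ℝ) : ℂ) * I) := by
    intro τ
    fun_prop
  have hlim : Tendsto Pn atTop (𝓝 G) := by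
    refine ProbabilityMeasure.tendsto_iff_tendsto_charFun.2 fun τ => ?_
    have e1 : ∀ n, ∫ z, Complex.exp (I * ((∑ i, τ i * X n z i : ℝ) : ℂ)) ∂Q =
        charFun ((Pn n : ProbabilityMeasure (EuclideanSpace ℝ (Fin d))) :
          Measure (EuclideanSpace ℝ (Fin d))) τ := by
      intro n
      have e2 : charFun ((Pn n : ProbabilityMeasure (EuclideanSpace ℝ (Fin d))) :
          Measure (EuclideanSpace ℝ (Fin d))) τ = charFun (Q.map (Y n)) τ := rfl
      rw [e2, charFun_apply, integral_map (hY n) (hexp τ).aestronglyMeasurable]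
      refine integral_congr_ae (Eventually.of_forall fun z => ?_)
      show Complex.exp (I * ((∑ i, τ i * X n z i : ℝ) : ℂ)) =
        Complex.exp (((inner ℝ (Y n z) τ : ℝ) : ℂ) * I)
      rw [inner_toLp', mul_comm I]
    have e3 : Complex.exp (-(∑ i, (τ i : ℂ) ^ 2) / 2) =
        charFun ((G : ProbabilityMeasure (EuclideanSpace ℝ (Fin d))) :
          Measure (EuclideanSpace ℝ (Fin d))) τ := by
      have e2 : charFun ((G : ProbabilityMeasure (EuclideanSpace ℝ (Fin d))) :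
          Measure (EuclideanSpace ℝ (Fin d))) τ =
          charFun (stdGaussian (EuclideanSpace ℝ (Fin d))) τ := rfl
      rw [e2, charFun_stdGaussian]
      congr 2
      have e4 : ‖τ‖ ^ 2 = ∑ i, τ i ^ 2 := by
        rw [EuclideanSpace.norm_sq_eq]
        simp
      have e5 : ((‖τ‖ : ℂ)) ^ 2 = ∑ i, (τ i : ℂ) ^ 2 := by exact_mod_cast e4
      rw [e5]
    have h1 := h (fun i => τ i)
    rw [e3] at h1
    exact h1.congr e1
  have hgc : Continuous fun x : EuclideanSpace ℝ (Fin d) => g (WithLp.ofLp x) :=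
    hg.comp (PiLp.continuous_ofLp 2 _)
  have hw := (ProbabilityMeasure.tendsto_iff_forall_integral_tendsto.1 hlim)
    (BoundedContinuousFunction.ofNormedAddCommGroup _ hgc C fun x => by
      rw [Real.norm_eq_abs]; exact hC _)
  have e4 : ∀ n, ∫ x, (BoundedContinuousFunction.ofNormedAddCommGroup _ hgc C fun x => by
      rw [Real.norm_eq_abs]; exact hC _) x
      ∂((Pn n : ProbabilityMeasure (EuclideanSpace ℝ (Fin d))) :
        Measure (EuclideanSpace ℝ (Fin d))) = ∫ z, g (X n z) ∂Q := by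
    intro n
    show ∫ x, g (WithLp.ofLp x) ∂(Q.map (Y n)) = _
    rw [integral_map (hY n) hgc.aestronglyMeasurable]
  have e5 : ∫ x, (BoundedContinuousFunction.ofNormedAddCommGroup _ hgc C fun x => by
      rw [Real.norm_eq_abs]; exact hC _) x
      ∂((G : ProbabilityMeasure (EuclideanSpace ℝ (Fin d))) :
        Measure (EuclideanSpace ℝ (Fin d))) = ∫ x, g x ∂(gd d) := by
    show ∫ x, g (WithLp.ofLp x) ∂(stdGaussian (EuclideanSpace ℝ (Fin d))) = _
    rw [← map_pi_eq_stdGaussian, integral_map hcont.measurable.aemeasurable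
      hgc.aestronglyMeasurable]
  rw [e5] at hw
  exact hw.congr e4

/-- truncation -/
def tr (M y : ℝ) : ℝ := max (-M) (min M y)

lemma tr_cont (M : ℝ) : Continuous (tr M) := by
  unfold tr
  fun_prop

lemma tr_abs {M : ℝ} (hM : 0 ≤ M) (y : ℝ) : |tr M y| ≤ M := by
  unfold tr
  rw [abs_le]
  constructor
  · exact le_max_left _ _
  · exact max_le (by linarith) (min_le_left _ _)

lemma tr_err {M κ : ℝ} (hM : 0 < M) (hκ : 1 ≤ κ) (y : ℝ) :
    |y - tr M y| ≤ M ^ (-(κ - 1)) * |y| ^ κ := by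
  have h0 : 0 ≤ M ^ (-(κ - 1)) * |y| ^ κ := by positivity
  by_cases h : |y| ≤ M
  · have h1 : tr M y = y := by
      unfold tr
      rw [abs_le] at h
      rw [min_eq_right h.2, max_eq_right h.1]
    rw [h1, sub_self, abs_zero]
    exact h0
  · push Not at h
    have hy : 0 < |y| := hM.trans h
    have h1 : |y - tr M y| ≤ |y| := by
      unfold tr
      rcases le_total 0 y with h2 | h2
      · rw [abs_of_nonneg h2] at h
        rw [min_eq_left h.le, max_eq_right (by linarith), abs_of_nonneg (by linarith),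
          abs_of_nonneg h2]
        linarith
      · rw [abs_of_nonpos h2] at h
        rw [min_eq_right (by linarith), max_eq_left (by linarith), abs_of_nonpos (by linarith),
          abs_of_nonpos h2]
        linarith
    refine h1.trans ?_
    have h2 : |y| = |y| ^ (-(κ - 1)) * |y| ^ κ := by
      rw [← Real.rpow_add hy]
      have : -(κ - 1) + κ = 1 := by ring
      rw [this, Real.rpow_one]
    have h3 : |y| ^ (-(κ - 1)) ≤ M ^ (-(κ - 1)) :=
      Real.rpow_le_rpow_of_nonpos hM h.le (by linarith)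
    calc |y| = |y| ^ (-(κ - 1)) * |y| ^ κ := h2
      _ ≤ M ^ (-(κ - 1)) * |y| ^ κ := by gcongr

lemma prod_bd (a : Fin d → ℕ) (x : Fin d → ℝ) {q : ℝ} (ha : 0 < ∑ i, a i) :
    |∏ i, x i ^ a i| ^ (q / (∑ i, a i : ℕ)) ≤ ∑ i, |x i| ^ q := by
  have hK : (0:ℝ) < ((∑ i, a i : ℕ) : ℝ) := by exact_mod_cast ha
  obtain ⟨K, hKd⟩ : ∃ K : ℝ, K = ((∑ i, a i : ℕ) : ℝ) := ⟨_, rfl⟩
  rw [← hKd] at hK ⊢
  have h1 : |∏ i, x i ^ a i| ^ (q / K) = ∏ i, (|x i| ^ q) ^ ((a i : ℝ) / K) := by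
    rw [Finset.abs_prod, ← Real.finsetProd_rpow _ _ (fun i _ => abs_nonneg _)]
    refine Finset.prod_congr rfl fun i _ => ?_
    rw [abs_pow, ← Real.rpow_natCast, ← Real.rpow_mul (abs_nonneg _),
      ← Real.rpow_mul (abs_nonneg _)]
    congr 1
    ring
  rw [h1]
  refine (Real.geom_mean_le_arith_mean_weighted Finset.univ (fun i => (a i : ℝ) / K)
    (fun i => |x i| ^ q) (fun i _ => by positivity) ?_ (fun i _ => by positivity)).trans ?_
  · rw [← Finset.sum_div, hKd]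
    push_cast
    rw [hKd] at hK
    push_cast at hK
    exact div_self hK.ne'
  · refine Finset.sum_le_sum fun i _ => ?_
    have h2 : (a i : ℝ) / K ≤ 1 := by
      rw [div_le_one hK, hKd]
      exact_mod_cast Finset.single_le_sum (f := a) (fun j _ => Nat.zero_le _) (Finset.mem_univ i)
    have h3 : 0 ≤ |x i| ^ q := by positivity
    calc (a i : ℝ) / K * |x i| ^ q ≤ 1 * |x i| ^ q := by gcongr
      _ = _ := one_mul _

lemma trunc_bd (Q : Measure Z) [IsFiniteMeasure Q] (x : Z → Fin d → ℝ) (hx : AEMeasurable x Q)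
    (a : Fin d → ℕ) {q : ℝ} (ha : 0 < ∑ i, a i) (hq : ((∑ i, a i : ℕ) : ℝ) < q)
    (hint : ∀ i, Integrable (fun z => |x z i| ^ q) Q) {M : ℝ} (hM : 0 < M) :
    |∫ z, ∏ i, x z i ^ a i ∂Q - ∫ z, tr M (∏ i, x z i ^ a i) ∂Q| ≤
      M ^ (-(q / (∑ i, a i : ℕ) - 1)) * ∑ i, ∫ z, |x z i| ^ q ∂Q := by
  have hK : (0:ℝ) < ((∑ i, a i : ℕ) : ℝ) := by exact_mod_cast ha
  have hκ : 1 < q / (∑ i, a i : ℕ) := by rwa [one_lt_div hK]
  obtain ⟨κ, hκd⟩ : ∃ κ : ℝ, κ = q / (∑ i, a i : ℕ) := ⟨_, rfl⟩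
  have hb : ∀ y : Fin d → ℝ, |∏ i, y i ^ a i| ^ κ ≤ ∑ i, |y i| ^ q := by
    intro y
    rw [hκd]
    exact prod_bd a y ha
  rw [← hκd] at hκ ⊢
  have hFc : Continuous fun y : Fin d → ℝ => ∏ i, y i ^ a i := by fun_prop
  have hFm : AEStronglyMeasurable (fun z => ∏ i, x z i ^ a i) Q :=
    (hFc.measurable.comp_aemeasurable hx).aestronglyMeasurable
  have hS : Integrable (fun z => ∑ i, |x z i| ^ q) Q := integrable_finsetSum _ fun i _ => hint i
  have hFi : Integrable (fun z => ∏ i, x z i ^ a i) Q := by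
    refine (hS.add (integrable_const (1:ℝ))).mono' hFm (Eventually.of_forall fun z => ?_)
    rw [Real.norm_eq_abs]
    show |∏ i, x z i ^ a i| ≤ (∑ i, |x z i| ^ q) + 1
    have h1 := hb (x z)
    have h2 : 0 ≤ ∑ i, |x z i| ^ q := Finset.sum_nonneg fun i _ => by positivity
    rcases le_total |∏ i, x z i ^ a i| 1 with h3 | h3
    · linarith
    · have h4 : |∏ i, x z i ^ a i| ^ (1:ℝ) ≤ |∏ i, x z i ^ a i| ^ κ :=
        Real.rpow_le_rpow_of_exponent_le h3 hκ.le
      rw [Real.rpow_one] at h4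
      linarith
  have hTi : Integrable (fun z => tr M (∏ i, x z i ^ a i)) Q := by
    refine (integrable_const M).mono' ?_ (Eventually.of_forall fun z => ?_)
    · exact (tr_cont M).comp_aestronglyMeasurable hFm
    · rw [Real.norm_eq_abs]
      exact tr_abs hM.le _
  rw [← integral_sub hFi hTi, ← integral_finsetSum _ fun i _ => hint i, ← integral_const_mul,
    ← Real.norm_eq_abs]
  refine norm_integral_le_of_norm_le (hS.const_mul _) (Eventually.of_forall fun z => ?_)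
  rw [Real.norm_eq_abs]
  refine (tr_err hM hκ.le _).trans ?_
  exact mul_le_mul_of_nonneg_left (hb (x z)) (by positivity)

lemma gd_int (i : Fin d) {q : ℝ} (hq : 0 ≤ q) :
    Integrable (fun x : Fin d → ℝ => |x i| ^ q) (gd d) := by
  have h1 : MemLp (id : ℝ → ℝ) (Real.toNNReal q) (gaussianReal 0 1) := memLp_id_gaussianReal _
  have h2 := h1.integrable_norm_rpow'
  rw [ENNReal.coe_toReal, Real.coe_toNNReal q hq] at h2
  have h3 : Integrable (fun x : ℝ => |x| ^ q) (gaussianReal 0 1) := h2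
  exact integrable_comp_eval (μ := fun _ : Fin d => gaussianReal 0 1) (i := i) h3

lemma exists_M {κ B ε : ℝ} (hκ : 1 < κ) (hε : 0 < ε) :
    ∃ M : ℝ, 0 < M ∧ M ^ (-(κ - 1)) * B < ε := by
  have h1 : Tendsto (fun M : ℝ => M ^ (-(κ - 1)) * B) atTop (𝓝 (0 * B)) :=
    (tendsto_rpow_neg_atTop (by linarith)).mul_const B
  rw [zero_mul] at h1
  obtain ⟨M, h2, h3⟩ := ((h1.eventually (gt_mem_nhds hε)).and (eventually_gt_atTop 0)).exists
  exact ⟨M, h3, h2⟩

/-- Convergence of the moments. -/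
lemma moments (Q : Measure Z) [IsProbabilityMeasure Q] (X : ℕ → Z → Fin d → ℝ)
    (hX : ∀ n, AEMeasurable (X n) Q)
    (h : ∀ t : Fin d → ℝ, Tendsto (fun n => ∫ z, Complex.exp (I * ((∑ i, t i * X n z i : ℝ) : ℂ)) ∂Q)
      atTop (𝓝 (Complex.exp (-(∑ i, (t i : ℂ) ^ 2) / 2))))
    (a : Fin d → ℕ) {q C : ℝ} (hq : ((∑ i, a i : ℕ) : ℝ) < q)
    (hint : ∀ n i, Integrable (fun z => |X n z i| ^ q) Q)
    (hC : ∀ i, ∀ᶠ n in atTop, ∫ z, |X n z i| ^ q ∂Q ≤ C) :
    Tendsto (fun n => ∫ z, ∏ i, X n z i ^ a i ∂Q) atTop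
      (𝓝 (∏ i, ∫ x, x ^ a i ∂(gaussianReal 0 1))) := by
  rcases Nat.eq_zero_or_pos (∑ i, a i) with h0 | ha
  · have h1 : ∀ i, a i = 0 := by
      intro i
      exact (Finset.sum_eq_zero_iff.1 h0) i (Finset.mem_univ i)
    simp only [h1, pow_zero, Finset.prod_const_one, integral_const, probReal_univ, smul_eq_mul,
      mul_one]
    exact tendsto_const_nhds
  have hK : (0:ℝ) < ((∑ i, a i : ℕ) : ℝ) := by exact_mod_cast ha
  have hκ : 1 < q / (∑ i, a i : ℕ) := by rwa [one_lt_div hK]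
  have hq0 : 0 ≤ q := by linarith
  have e1 : ∏ i, ∫ x, x ^ a i ∂(gaussianReal 0 1) = ∫ x, ∏ i, x i ^ a i ∂(gd d) :=
    (integral_fintype_prod_eq_prod (fun (i : Fin d) (x : ℝ) => x ^ a i)
      (μ := fun _ => gaussianReal 0 1)).symm
  rw [e1]
  refine Metric.tendsto_nhds.2 fun ε hε => ?_
  obtain ⟨B2, hB2⟩ : ∃ B2 : ℝ, B2 = ∑ i, ∫ x, |x i| ^ q ∂(gd d) := ⟨_, rfl⟩
  obtain ⟨B1, hB1⟩ : ∃ B1 : ℝ, B1 = ∑ _i : Fin d, C := ⟨_, rfl⟩
  obtain ⟨M, hM0, hM⟩ := exists_M (B := |B1| + |B2|) hκ (by positivity : 0 < ε / 3)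
  have hMp : 0 ≤ M ^ (-(q / (∑ i, a i : ℕ) - 1)) := by positivity
  have hM1 : M ^ (-(q / (∑ i, a i : ℕ) - 1)) * B1 < ε / 3 := by
    refine lt_of_le_of_lt (mul_le_mul_of_nonneg_left ?_ hMp) hM
    have := le_abs_self B1
    have := abs_nonneg B2
    linarith
  have hM2 : M ^ (-(q / (∑ i, a i : ℕ) - 1)) * B2 < ε / 3 := by
    refine lt_of_le_of_lt (mul_le_mul_of_nonneg_left ?_ hMp) hM
    have := le_abs_self B2
    have := abs_nonneg B1
    linarith
  have hconv := conv_bdd Q X hX h (fun y => tr M (∏ i, y i ^ a i))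
    ((tr_cont M).comp (by fun_prop)) M (fun y => tr_abs hM0.le _)
  have h3 := (Metric.tendsto_nhds.1 hconv) (ε / 3) (by positivity)
  have h4 := trunc_bd (gd d) (fun y => y) aemeasurable_id a ha hq (fun i => gd_int i hq0) hM0
  rw [← hB2] at h4
  filter_upwards [h3, Filter.eventually_all.2 hC] with n h5 h6
  have h7 := trunc_bd Q (X n) (hX n) a ha hq (hint n) hM0
  have h8 : ∑ i, ∫ z, |X n z i| ^ q ∂Q ≤ B1 := by
    rw [hB1]
    exact Finset.sum_le_sum fun i _ => h6 i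
  have h9 := mul_le_mul_of_nonneg_left h8 hMp
  rw [Real.dist_eq] at h5 ⊢
  rw [abs_lt] at h5 ⊢
  rw [abs_le] at h7 h4
  constructor <;> linarith

end abs

section weight

variable {Ω : Set ℂ} {ψ : ℂ → ℝ}

/-- the weighted measure -/
def rho (Ω : Set ℂ) (ψ : ℂ → ℝ) : Measure ℂ :=
  (volume.restrict Ω).withDensity fun z => ((Real.toNNReal (ψ z / z.im ^ 2) : ℝ≥0) : ℝ≥0∞)

lemma w_meas (hψ : TF Ω ψ) : Measurable fun z : ℂ => Real.toNNReal (ψ z / z.im ^ 2) :=
  ((hψ.1.continuous.measurable).div (Complex.measurable_im.pow_const 2)).real_toNNReal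

lemma w_nonneg (h0 : ∀ z, 0 ≤ ψ z) (z : ℂ) : 0 ≤ ψ z / z.im ^ 2 :=
  div_nonneg (h0 z) (sq_nonneg _)

lemma int_rho {E : Type*} [NormedAddCommGroup E] [NormedSpace ℝ E] (hψ : TF Ω ψ)
    (h0 : ∀ z, 0 ≤ ψ z) (g : ℂ → E) :
    ∫ z, g z ∂(rho Ω ψ) = ∫ z in Ω, (ψ z / z.im ^ 2) • g z := by
  unfold rho
  rw [integral_withDensity_eq_integral_smul (w_meas hψ)]
  refine integral_congr_ae (Eventually.of_forall fun z => ?_)
  show Real.toNNReal (ψ z / z.im ^ 2) • g z = _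
  rw [NNReal.smul_def, Real.coe_toNNReal _ (w_nonneg h0 z)]

lemma integrable_rho (hop : IsOpen Ω) (hHP : Ω ⊆ HP) (hψ : TF Ω ψ) (h0 : ∀ z, 0 ≤ ψ z)
    {g : ℂ → ℝ} (hg : ContinuousOn g Ω) : Integrable g (rho Ω ψ) := by
  unfold rho
  rw [integrable_withDensity_iff_integrable_smul (w_meas hψ)]
  have h1 : IntegrableOn (fun z => Real.toNNReal (ψ z / z.im ^ 2) • g z) (tsupport ψ) := by
    refine ContinuousOn.integrableOn_compact hψ.2.1 ?_
    have h2 : ContinuousOn (fun z => (ψ z / z.im ^ 2) * g z) (tsupport ψ) := by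
      refine ContinuousOn.mul (ContinuousOn.div hψ.1.continuous.continuousOn
        (by fun_prop) ?_) (hg.mono hψ.2.2)
      intro z hz
      have h3 : 0 < z.im := hHP (hψ.2.2 hz)
      positivity
    refine h2.congr fun z _ => ?_
    show Real.toNNReal (ψ z / z.im ^ 2) • g z = _
    rw [NNReal.smul_def, Real.coe_toNNReal _ (w_nonneg h0 z), smul_eq_mul]
  refine h1.of_forall_sdiff_eq_zero hop.measurableSet ?_
  intro z hz
  have h4 : ψ z = 0 := image_eq_zero_of_notMem_tsupport hz.2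
  rw [h4, zero_div, Real.toNNReal_zero, zero_smul]

end weight

theorem mom : S_MOM := by
  intro d Ω u hop hHP hu ψ hψ h0 a hch hmo
  obtain ⟨q, C, hq, hC⟩ := hmo
  have hq0 : 0 < q := lt_of_le_of_lt (Nat.cast_nonneg _) hq
  have hone := integrable_rho hop hHP hψ h0 (g := fun _ => (1:ℝ)) continuousOn_const
  have hfin : IsFiniteMeasure (rho Ω ψ) := by
    rcases (integrable_const_iff (c := (1:ℝ))).1 hone with h1 | h1
    · exact absurd h1 one_ne_zero
    · exact h1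
  have hm : ∫ z in Ω, ψ z / z.im ^ 2 = (rho Ω ψ).real Set.univ := by
    have h1 := int_rho hψ h0 (fun _ => (1:ℝ))
    rw [integral_const, smul_eq_mul, mul_one] at h1
    rw [h1]
    simp
  have hconv : ∀ g : ℂ → ℝ, ∫ z in Ω, ψ z / z.im ^ 2 * g z = ∫ z, g z ∂(rho Ω ψ) := by
    intro g
    rw [int_rho hψ h0]
    rfl
  have hconvC : ∀ g : ℂ → ℂ, ∫ z in Ω, ((ψ z / z.im ^ 2 : ℝ) : ℂ) * g z =
      ∫ z, g z ∂(rho Ω ψ) := by
    intro g
    rw [int_rho hψ h0]
    refine integral_congr_ae (Eventually.of_forall fun z => ?_)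
    show _ = (ψ z / z.im ^ 2) • g z
    rw [Complex.real_smul]
  rw [hm]
  simp only [hconv] at hC ⊢
  have hmC : ∫ z in Ω, ((ψ z / z.im ^ 2 : ℝ) : ℂ) = (((rho Ω ψ).real Set.univ : ℝ) : ℂ) := by
    rw [← hm]
    exact integral_complex_ofReal
  rw [hmC] at hch
  simp only [hconvC] at hch
  rcases eq_or_ne (rho Ω ψ) 0 with hz | hz
  · rw [hz]
    simp
  obtain ⟨m, hmd⟩ : ∃ m : ℝ, m = (rho Ω ψ).real Set.univ := ⟨_, rfl⟩
  have hNZ : NeZero (rho Ω ψ) := ⟨hz⟩
  have hm0 : 0 < m := by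
    rw [hmd]
    exact measureReal_univ_pos
  rw [← hmd] at hch ⊢
  obtain ⟨Q, hQ⟩ : ∃ Q : Measure ℂ, Q = (rho Ω ψ Set.univ)⁻¹ • rho Ω ψ := ⟨_, rfl⟩
  have hQp : IsProbabilityMeasure Q := by
    rw [hQ]
    infer_instance
  have hQr : ∀ g : ℂ → ℝ, ∫ z, g z ∂Q = m⁻¹ * ∫ z, g z ∂(rho Ω ψ) := by
    intro g
    rw [hQ, integral_smul_measure, hmd, ENNReal.toReal_inv]
    rfl
  have hQc : ∀ g : ℂ → ℂ, ∫ z, g z ∂Q = ((m⁻¹ : ℝ) : ℂ) * ∫ z, g z ∂(rho Ω ψ) := by
    intro g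
    rw [hQ, integral_smul_measure, hmd, ENNReal.toReal_inv, Complex.real_smul]
    rfl
  have hac : Q ≪ volume.restrict Ω := by
    rw [hQ]
    exact (Measure.smul_absolutelyContinuous).trans (withDensity_absolutelyContinuous _ _)
  have hX : ∀ n, AEMeasurable (fun z => fun i : Fin d => u i n z) Q := fun n =>
    aemeasurable_pi_lambda _ fun i => ((hu i n).aemeasurable hop.measurableSet).mono_ac hac
  have hqc : ∀ i n, ContinuousOn (fun z => |u i n z| ^ q) Ω := fun i n =>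
    ((hu i n).abs).rpow_const fun z _ => Or.inr hq0.le
  have hint : ∀ n i, Integrable (fun z => |u i n z| ^ q) Q := by
    intro n i
    rw [hQ]
    refine (integrable_rho hop hHP hψ h0 (hqc i n)).smul_measure ?_
    rw [ENNReal.inv_ne_top]
    exact (Measure.measure_univ_ne_zero).2 hz
  have hC' : ∀ i, ∀ᶠ n in atTop, ∫ z, |u i n z| ^ q ∂Q ≤ m⁻¹ * C := by
    intro i
    filter_upwards [hC i] with n hn
    rw [hQr]
    exact mul_le_mul_of_nonneg_left hn (by positivity)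
  have hmm : ((m⁻¹ : ℝ) : ℂ) * (m : ℂ) = 1 := by
    rw [← Complex.ofReal_mul, inv_mul_cancel₀ hm0.ne', Complex.ofReal_one]
  have hch' : ∀ t : Fin d → ℝ, Tendsto (fun n => ∫ z, Complex.exp (I *
      ((∑ i, t i * (fun (n : ℕ) (z : ℂ) (i : Fin d) => u i n z) n z i : ℝ) : ℂ)) ∂Q) atTop
      (𝓝 (Complex.exp (-(∑ i, (t i : ℂ) ^ 2) / 2))) := by
    intro t
    have h1 := (hch t).const_mul (((m⁻¹ : ℝ) : ℂ))
    have h2 : ((m⁻¹ : ℝ) : ℂ) * (Complex.exp (-(∑ i, (t i : ℂ) ^ 2) / 2) * (m : ℂ)) =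
        Complex.exp (-(∑ i, (t i : ℂ) ^ 2) / 2) := by
      linear_combination (Complex.exp (-(∑ i, (t i : ℂ) ^ 2) / 2)) * hmm
    rw [h2] at h1
    refine h1.congr fun n => ?_
    rw [hQc]
  have hfinal := moments Q (fun n z i => u i n z) hX hch' a hq hint hC'
  have h3 := hfinal.mul_const m
  refine h3.congr fun n => ?_
  rw [hQr]
  field_simp

end

end Pool.Agent.H627.SF
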